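import Mathlib

set_option autoImplicit false

/-! An `i`-graph without a well-covered seed graph.

In the `i`-graph of a well-covered graph every cube minus a vertex (a vertex, three pairwise
non-adjacent neighbours of it, and three vertices completing the three squares) extends to a cube.
The cube minus a vertex is the `i`-graph of a graph on seven vertices, so it has no well-covered
seed. -/

namespace Pool.Agent.Results.MP_89d95d_co.NoWellCoveredSeed

open Finset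

/-- `S` is an independent dominating set, i.e. a maximal independent set. -/
def IsMIS {V : Type*} (G : SimpleGraph V) (S : Finset V) : Prop :=
  (∀ u ∈ S, ∀ v ∈ S, ¬ G.Adj u v) ∧ ∀ v, v ∉ S → ∃ u ∈ S, G.Adj u v

/-- `S` is an independent dominating set of minimum size. -/
def IsISet {V : Type*} (G : SimpleGraph V) (S : Finset V) : Prop :=
  IsMIS G S ∧ ∀ T, IsMIS G T → S.card ≤ T.card

/-- All maximal independent sets have the same size. -/
def WellCovered {V : Type*} (G : SimpleGraph V) : Prop :=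
  ∀ S T, IsMIS G S → IsMIS G T → S.card = T.card

/-- The `i`-graph: `i`-sets, adjacent when one vertex slides along an edge. -/
def iGraph {V : Type*} [DecidableEq V] (G : SimpleGraph V) :
    SimpleGraph {S : Finset V // IsISet G S} where
  Adj X Y := X ≠ Y ∧ ∃ u ∈ X.1, ∃ v ∈ Y.1, G.Adj u v ∧ Y.1 = insert v (X.1.erase u)
  symm := ⟨by
    rintro X Y ⟨hne, u, hu, v, hv, huv, hY⟩
    refine ⟨hne.symm, v, hv, u, hu, huv.symm, ?_⟩
    have hvX : v ∉ X.1 := fun h => X.2.1.1 u hu v h huv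
    rw [hY, erase_insert (fun h => hvX (mem_of_mem_erase h)), insert_erase hu]⟩
  loopless := ⟨fun X h => h.1 rfl⟩

section

variable {W : Type*} [DecidableEq W] {H : SimpleGraph W}

/-- two maximal independent sets which differ in one element are joined by an edge -/
theorem slide {X Y : Finset W} (hX : IsMIS H X) (hY : IsMIS H Y) {a b : W} (hb : b ∉ X)
    (h : Y = insert b (X.erase a)) : H.Adj a b := by
  obtain ⟨c, hc, hcb⟩ := hX.2 b hb
  by_cases hca : c = a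
  · rw [← hca]; exact hcb
  · exact absurd hcb (hY.1 c (by rw [h]; exact mem_insert_of_mem (mem_erase.2 ⟨hca, hc⟩)) b
      (by rw [h]; exact mem_insert_self _ _))

theorem adj_of {X Y : {S : Finset W // IsISet H S}} {a b : W} (ha : a ∈ X.1) (hb : b ∉ X.1)
    (h : Y.1 = insert b (X.1.erase a)) : (iGraph H).Adj X Y := by
  have hbY : b ∈ Y.1 := by rw [h]; exact mem_insert_self _ _
  refine ⟨?_, a, ha, b, hbY, slide X.2.1 Y.2.1 hb h, h⟩
  rintro rfl
  exact hb hbY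

theorem of_adj {X Y : {S : Finset W // IsISet H S}} (h : (iGraph H).Adj X Y) :
    ∃ a ∈ X.1, ∃ b, b ∉ X.1 ∧ H.Adj a b ∧ Y.1 = insert b (X.1.erase a) := by
  obtain ⟨_, u, hu, v, _, huv, hY⟩ := h
  exact ⟨u, hu, v, fun h => X.2.1.1 u hu v h huv, huv, hY⟩

theorem ne_of {X X' X'' : {S : Finset W // IsISet H S}} {a b a' b' : W} (ha : a ∈ X.1)
    (hb : b ∉ X.1) (h : X'.1 = insert b (X.1.erase a)) (ha' : a' ∈ X.1) (hb' : b' ∉ X.1)
    (h' : X''.1 = insert b' (X.1.erase a')) (hne : X' ≠ X'') (hna : ¬ (iGraph H).Adj X' X'') :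
    a ≠ a' ∧ b ≠ b' := by
  have hab : a ≠ b := fun h => hb (h ▸ ha)
  have hab' : a' ≠ b' := fun h => hb' (h ▸ ha')
  have h1 : a' ≠ b := fun h => hb (h ▸ ha')
  have h2 : a ≠ b' := fun h => hb' (h ▸ ha)
  constructor
  · rintro rfl
    have hbb : b ≠ b' := by
      rintro rfl
      exact hne (Subtype.ext (by rw [h, h']))
    refine hna (adj_of (a := b) (b := b') (by rw [h]; exact mem_insert_self _ _) ?_ ?_)
    · rw [h, mem_insert, mem_erase]
      rintro (h3 | h3)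
      · exact hbb h3.symm
      · exact hb' h3.2
    · rw [h', h, erase_insert (fun h => hb (mem_of_mem_erase h))]
  · rintro rfl
    have haa : a ≠ a' := by
      rintro rfl
      exact hne (Subtype.ext (by rw [h, h']))
    refine hna (adj_of (a := a') (b := a) ?_ ?_ ?_)
    · rw [h, mem_insert, mem_erase]
      exact Or.inr ⟨haa.symm, ha'⟩
    · rw [h, mem_insert, mem_erase]
      rintro (h3 | h3)
      · exact hab h3
      · exact h3.1 rfl
    · rw [h', h]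
      ext t
      simp only [mem_insert, mem_erase]
      constructor
      · rintro (rfl | ⟨h3, h4⟩)
        · exact Or.inr ⟨h1.symm, Or.inl rfl⟩
        · by_cases h5 : t = a
          · exact Or.inl h5
          · exact Or.inr ⟨h3, Or.inr ⟨h5, h4⟩⟩
      · rintro (rfl | ⟨h3, rfl | ⟨h4, h5⟩⟩)
        · exact Or.inr ⟨haa, ha⟩
        · exact Or.inl rfl
        · exact Or.inr ⟨h3, h5⟩

/-- the fourth vertex of a square -/
theorem square {X X' X'' Y : {S : Finset W // IsISet H S}} {a b a' b' : W} (ha : a ∈ X.1)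
    (hb : b ∉ X.1) (h : X'.1 = insert b (X.1.erase a)) (hab : H.Adj a b) (ha' : a' ∈ X.1)
    (hb' : b' ∉ X.1) (h' : X''.1 = insert b' (X.1.erase a')) (hab' : H.Adj a' b')
    (haa : a ≠ a') (hbb : b ≠ b') (hY : (iGraph H).Adj X' Y) (hY' : (iGraph H).Adj X'' Y)
    (hne : Y ≠ X) : Y.1 = insert b' ((insert b (X.1.erase a)).erase a') := by
  obtain ⟨c, hc, d, hd, hcd, hYe⟩ := of_adj hY
  obtain ⟨c', hc', d', hd', hcd', hYe'⟩ := of_adj hY'
  have key1 : ∀ t ∈ X'.1, t ∉ Y.1 → t = c := by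
    intro t ht htY
    by_contra hcon
    exact htY (by rw [hYe]; exact mem_insert_of_mem (mem_erase.2 ⟨hcon, ht⟩))
  have key2 : ∀ t ∈ X''.1, t ∉ Y.1 → t = c' := by
    intro t ht htY
    by_contra hcon
    exact htY (by rw [hYe']; exact mem_insert_of_mem (mem_erase.2 ⟨hcon, ht⟩))
  have m1 : a' ∈ X'.1 := by rw [h]; exact mem_insert_of_mem (mem_erase.2 ⟨haa.symm, ha'⟩)
  have m2 : a ∈ X''.1 := by rw [h']; exact mem_insert_of_mem (mem_erase.2 ⟨haa, ha⟩)
  have m3 : b ∈ X'.1 := by rw [h]; exact mem_insert_self _ _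
  have m4 : b' ∈ X''.1 := by rw [h']; exact mem_insert_self _ _
  have hab'' : a' ≠ b := fun h => hb (h ▸ ha')
  have hab''' : a ≠ b' := fun h => hb' (h ▸ ha)
  have hnX : ¬ X.1 ⊆ Y.1 := by
    intro hsub
    apply hne
    refine Subtype.ext (Finset.Subset.antisymm ?_ hsub)
    intro t ht
    by_contra htX
    obtain ⟨u, hu, hut⟩ := X.2.1.2 t htX
    exact Y.2.1.1 u (hsub hu) t ht hut
  have not_both : ¬ (a ∈ Y.1 ∧ a' ∈ Y.1 ∧ (b ∉ Y.1 ∨ b' ∉ Y.1)) := by
    rintro ⟨h1, h2, h3 | h3⟩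
    · have hcb := key1 b m3 h3
      refine hnX fun t ht => ?_
      by_cases hta : t = a
      · rw [hta]; exact h1
      · by_contra htY
        have := key1 t (by rw [h]; exact mem_insert_of_mem (mem_erase.2 ⟨hta, ht⟩)) htY
        exact hb (hcb.trans this.symm ▸ ht)
    · have hcb := key2 b' m4 h3
      refine hnX fun t ht => ?_
      by_cases hta : t = a'
      · rw [hta]; exact h2
      · by_contra htY
        have := key2 t (by rw [h']; exact mem_insert_of_mem (mem_erase.2 ⟨hta, ht⟩)) htY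
        exact hb' (hcb.trans this.symm ▸ ht)
  have hbY : b ∈ Y.1 := by
    by_contra hcon
    have h1 := key1 b m3 hcon
    have h2 : a' ∈ Y.1 := by
      by_contra h3
      exact hab'' ((key1 a' m1 h3).trans h1.symm)
    have h4 : b' ∉ Y.1 := fun h5 => Y.2.1.1 a' h2 b' h5 hab'
    have h5 := key2 b' m4 h4
    have h6 : a ∈ Y.1 := by
      by_contra h3
      exact hab''' ((key2 a m2 h3).trans h5.symm)
    exact not_both ⟨h6, h2, Or.inl hcon⟩
  have hbY' : b' ∈ Y.1 := by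
    by_contra hcon
    have h1 := key2 b' m4 hcon
    have h2 : a ∈ Y.1 := by
      by_contra h3
      exact hab''' ((key2 a m2 h3).trans h1.symm)
    exact Y.2.1.1 a h2 b hbY hab
  have haY' : a' ∉ Y.1 := fun h5 => Y.2.1.1 a' h5 b' hbY' hab'
  have hc1 := key1 a' m1 haY'
  have hd1 : b' = d := by
    rw [hYe, mem_insert, mem_erase] at hbY'
    rcases hbY' with h5 | h5
    · exact h5
    · exfalso
      rw [h, mem_insert, mem_erase] at h5
      rcases h5.2 with h6 | h6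
      · exact hbb h6.symm
      · exact hb' h6.2
  rw [hYe, ← hc1, ← hd1, h]

/-- independent sets extend to maximal ones -/
theorem extend [Fintype W] (S : Finset W) (hS : ∀ u ∈ S, ∀ v ∈ S, ¬ H.Adj u v) :
    ∃ T, S ⊆ T ∧ IsMIS H T := by
  classical
  set F : Finset (Finset W) := univ.filter (fun T => S ⊆ T ∧ ∀ u ∈ T, ∀ v ∈ T, ¬ H.Adj u v) with hF
  have hne : F.Nonempty := ⟨S, by rw [hF, mem_filter]; exact ⟨mem_univ _, Subset.rfl, hS⟩⟩
  obtain ⟨T, hT, hmax⟩ := F.exists_max_image card hne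
  rw [hF, mem_filter] at hT
  refine ⟨T, hT.2.1, hT.2.2, ?_⟩
  intro v hv
  by_contra hcon
  push Not at hcon
  have h1 : insert v T ∈ F := by
    rw [hF, mem_filter]
    refine ⟨mem_univ _, hT.2.1.trans (subset_insert _ _), ?_⟩
    intro a ha b hb
    rw [mem_insert] at ha hb
    rcases ha with rfl | ha <;> rcases hb with rfl | hb
    · exact H.irrefl
    · exact fun h => hcon b hb h.symm
    · exact hcon a ha
    · exact hT.2.2 a ha b hb
  have h2 := hmax _ h1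
  rw [card_insert_of_notMem hv] at h2
  omega

/-- the completion of a cube minus a vertex in the `i`-graph of a well-covered graph -/
theorem completion [Fintype W] (hwc : WellCovered H)
    {X X0 X1 X2 Y01 Y02 Y12 : {S : Finset W // IsISet H S}}
    (h0 : (iGraph H).Adj X X0) (h1 : (iGraph H).Adj X X1) (h2 : (iGraph H).Adj X X2)
    (n01 : X0 ≠ X1 ∧ ¬ (iGraph H).Adj X0 X1) (n02 : X0 ≠ X2 ∧ ¬ (iGraph H).Adj X0 X2)
    (n12 : X1 ≠ X2 ∧ ¬ (iGraph H).Adj X1 X2)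
    (s01 : (iGraph H).Adj X0 Y01 ∧ (iGraph H).Adj X1 Y01 ∧ Y01 ≠ X)
    (s02 : (iGraph H).Adj X0 Y02 ∧ (iGraph H).Adj X2 Y02 ∧ Y02 ≠ X)
    (s12 : (iGraph H).Adj X1 Y12 ∧ (iGraph H).Adj X2 Y12 ∧ Y12 ≠ X) :
    ∃ Y, (iGraph H).Adj Y01 Y ∧ (iGraph H).Adj Y02 Y ∧ (iGraph H).Adj Y12 Y := by
  obtain ⟨a0, ha0, b0, hb0, hab0, e0⟩ := of_adj h0
  obtain ⟨a1, ha1, b1, hb1, hab1, e1⟩ := of_adj h1
  obtain ⟨a2, ha2, b2, hb2, hab2, e2⟩ := of_adj h2
  obtain ⟨na01, nb01⟩ := ne_of ha0 hb0 e0 ha1 hb1 e1 n01.1 n01.2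
  obtain ⟨na02, nb02⟩ := ne_of ha0 hb0 e0 ha2 hb2 e2 n02.1 n02.2
  obtain ⟨na12, nb12⟩ := ne_of ha1 hb1 e1 ha2 hb2 e2 n12.1 n12.2
  have f01 := square ha0 hb0 e0 hab0 ha1 hb1 e1 hab1 na01 nb01 s01.1 s01.2.1 s01.2.2
  have f02 := square ha0 hb0 e0 hab0 ha2 hb2 e2 hab2 na02 nb02 s02.1 s02.2.1 s02.2.2
  have f12 := square ha1 hb1 e1 hab1 ha2 hb2 e2 hab2 na12 nb12 s12.1 s12.2.1 s12.2.2
  have d00 : a0 ≠ b0 := fun h => hb0 (h ▸ ha0)
  have d01 : a0 ≠ b1 := fun h => hb1 (h ▸ ha0)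
  have d02 : a0 ≠ b2 := fun h => hb2 (h ▸ ha0)
  have d10 : a1 ≠ b0 := fun h => hb0 (h ▸ ha1)
  have d11 : a1 ≠ b1 := fun h => hb1 (h ▸ ha1)
  have d12 : a1 ≠ b2 := fun h => hb2 (h ▸ ha1)
  have d20 : a2 ≠ b0 := fun h => hb0 (h ▸ ha2)
  have d21 : a2 ≠ b1 := fun h => hb1 (h ▸ ha2)
  have d22 : a2 ≠ b2 := fun h => hb2 (h ▸ ha2)
  set S : Finset W := insert b2 (Y01.1.erase a2) with hS
  have hmemS : ∀ t, t ∈ S ↔ t = b0 ∨ t = b1 ∨ t = b2 ∨ (t ∈ X.1 ∧ t ≠ a0 ∧ t ≠ a1 ∧ t ≠ a2) := by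
    intro t
    rw [hS, f01]
    simp only [mem_insert, mem_erase]
    constructor
    · tauto
    · rintro (rfl | rfl | rfl | h)
      · exact Or.inr ⟨d20.symm, Or.inr ⟨d10.symm, Or.inl rfl⟩⟩
      · exact Or.inr ⟨d21.symm, Or.inl rfl⟩
      · exact Or.inl rfl
      · tauto
  have hbX : ∀ t ∈ X.1, t ≠ a2 → ¬ H.Adj b2 t := by
    intro t ht hta
    exact X2.2.1.1 b2 (by rw [e2]; exact mem_insert_self _ _) t
      (by rw [e2]; exact mem_insert_of_mem (mem_erase.2 ⟨hta, ht⟩))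
  have hb20 : ¬ H.Adj b2 b0 := Y02.2.1.1 b2 (by rw [f02]; exact mem_insert_self _ _) b0
    (by rw [f02]; exact mem_insert_of_mem (mem_erase.2 ⟨d20.symm, mem_insert_self _ _⟩))
  have hb21 : ¬ H.Adj b2 b1 := Y12.2.1.1 b2 (by rw [f12]; exact mem_insert_self _ _) b1
    (by rw [f12]; exact mem_insert_of_mem (mem_erase.2 ⟨d21.symm, mem_insert_self _ _⟩))
  have hb2S : ∀ t ∈ S, ¬ H.Adj b2 t := by
    intro t ht
    rcases (hmemS t).1 ht with rfl | rfl | rfl | h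
    · exact hb20
    · exact hb21
    · exact H.irrefl
    · exact hbX t h.1 h.2.2.2
  have hind : ∀ u ∈ S, ∀ v ∈ S, ¬ H.Adj u v := by
    intro u hu v hv
    by_cases hub : u = b2
    · rw [hub]; exact hb2S v hv
    · by_cases hvb : v = b2
      · rw [hvb]; exact fun h => hb2S u hu h.symm
      · rw [hS, mem_insert] at hu hv
        exact Y01.2.1.1 u (mem_of_mem_erase (hu.resolve_left hub)) v
          (mem_of_mem_erase (hv.resolve_left hvb))
  have ha2Y : a2 ∈ Y01.1 := by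
    rw [f01]; simp only [mem_insert, mem_erase]
    exact Or.inr ⟨na12.symm, Or.inr ⟨na02.symm, ha2⟩⟩
  have hb2Y : b2 ∉ Y01.1 := by
    rw [f01]; simp only [mem_insert, mem_erase]
    rintro (h | ⟨_, h | h⟩)
    · exact nb12 h.symm
    · exact nb02 h.symm
    · exact hb2 h.2
  have hcard : S.card = Y01.1.card := by
    rw [hS, card_insert_of_notMem (fun h => hb2Y (mem_of_mem_erase h)), card_erase_of_mem ha2Y]
    have := card_pos.2 ⟨a2, ha2Y⟩
    omega
  obtain ⟨T, hST, hT⟩ := extend S hind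
  have hTS : S = T := Finset.eq_of_subset_of_card_le hST (by
    rw [hcard, hwc T Y01.1 hT Y01.2.1])
  have hSI : IsISet H S := by
    rw [hTS]
    exact ⟨hT, fun U hU => (hwc T U hT hU).le⟩
  refine ⟨⟨S, hSI⟩, adj_of ha2Y hb2Y rfl, adj_of (a := a1) (b := b1) ?_ ?_ ?_,
    adj_of (a := a0) (b := b0) ?_ ?_ ?_⟩
  · rw [f02]; simp only [mem_insert, mem_erase]
    exact Or.inr ⟨na12, Or.inr ⟨na01.symm, ha1⟩⟩
  · rw [f02]; simp only [mem_insert, mem_erase]
    rintro (h | ⟨_, h | h⟩)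
    · exact nb12 h
    · exact nb01 h.symm
    · exact hb1 h.2
  · ext t
    rw [hmemS, f02]
    simp only [mem_insert, mem_erase]
    constructor
    · rintro (rfl | rfl | rfl | h)
      · exact Or.inr ⟨d10.symm, Or.inr ⟨d20.symm, Or.inl rfl⟩⟩
      · exact Or.inl rfl
      · exact Or.inr ⟨d12.symm, Or.inl rfl⟩
      · tauto
    · tauto
  · rw [f12]; simp only [mem_insert, mem_erase]
    exact Or.inr ⟨na02, Or.inr ⟨na01, ha0⟩⟩
  · rw [f12]; simp only [mem_insert, mem_erase]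
    rintro (h | ⟨_, h | h⟩)
    · exact nb02 h
    · exact nb01 h
    · exact hb0 h.2
  · ext t
    rw [hmemS, f12]
    simp only [mem_insert, mem_erase]
    constructor
    · rintro (rfl | rfl | rfl | h)
      · exact Or.inl rfl
      · exact Or.inr ⟨d01.symm, Or.inr ⟨d21.symm, Or.inl rfl⟩⟩
      · exact Or.inr ⟨d02.symm, Or.inl rfl⟩
      · tauto
    · tauto

end

/-- the seed: `p_i = i`, `q_i = i + 3` for `i = 0, 1, 2`, and `z = 6`; edges `p_i q_i`, `z p_i` -/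
def F : SimpleGraph (Fin 7) where
  Adj a b := (a.val < 3 ∧ a.val + 3 = b.val) ∨ (b.val < 3 ∧ b.val + 3 = a.val) ∨
    (a.val = 6 ∧ b.val < 3) ∨ (b.val = 6 ∧ a.val < 3)
  symm := ⟨fun a b h => by omega⟩
  loopless := ⟨fun a h => by omega⟩

instance : DecidableRel F.Adj := fun a b => by unfold F; infer_instance

instance (S : Finset (Fin 7)) : Decidable (IsMIS F S) := by unfold IsMIS; infer_instance

/-- sliding, on sets -/
def Rel (S T : Finset (Fin 7)) : Prop :=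
  S ≠ T ∧ ∃ u ∈ S, ∃ v ∈ T, F.Adj u v ∧ T = insert v (S.erase u)

instance (S T : Finset (Fin 7)) : Decidable (Rel S T) := by unfold Rel; infer_instance

theorem min_three : ∀ T : Finset (Fin 7), IsMIS F T → 3 ≤ T.card := by decide +kernel

theorem no_common : ∀ T : Finset (Fin 7), IsMIS F T →
    ¬ (Rel {3, 4, 2} T ∧ Rel {3, 1, 5} T ∧ Rel {0, 4, 5} T) := by decide +kernel

theorem mis_all : IsMIS F {0, 1, 2} ∧ IsMIS F {3, 1, 2} ∧ IsMIS F {0, 4, 2} ∧ IsMIS F {0, 1, 5} ∧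
    IsMIS F {3, 4, 2} ∧ IsMIS F {3, 1, 5} ∧ IsMIS F {0, 4, 5} := by decide +kernel

theorem rel_all : Rel {0, 1, 2} {3, 1, 2} ∧ Rel {0, 1, 2} {0, 4, 2} ∧ Rel {0, 1, 2} {0, 1, 5} ∧
    ¬ Rel {3, 1, 2} {0, 4, 2} ∧ ¬ Rel {3, 1, 2} {0, 1, 5} ∧ ¬ Rel {0, 4, 2} {0, 1, 5} ∧
    Rel {3, 1, 2} {3, 4, 2} ∧ Rel {0, 4, 2} {3, 4, 2} ∧ Rel {3, 1, 2} {3, 1, 5} ∧
    Rel {0, 1, 5} {3, 1, 5} ∧ Rel {0, 4, 2} {0, 4, 5} ∧ Rel {0, 1, 5} {0, 4, 5} := by
  decide +kernel

theorem ne_all : ({3, 1, 2} : Finset (Fin 7)) ≠ {0, 4, 2} ∧ ({3, 1, 2} : Finset (Fin 7)) ≠ {0, 1, 5} ∧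
    ({0, 4, 2} : Finset (Fin 7)) ≠ {0, 1, 5} ∧ ({3, 4, 2} : Finset (Fin 7)) ≠ {0, 1, 2} ∧
    ({3, 1, 5} : Finset (Fin 7)) ≠ {0, 1, 2} ∧ ({0, 4, 5} : Finset (Fin 7)) ≠ {0, 1, 2} := by
  decide +kernel

/-- an `i`-set of `F` from a three element maximal independent set -/
def mk (S : Finset (Fin 7)) (h : IsMIS F S) (hc : S.card = 3) : {S : Finset (Fin 7) // IsISet F S} :=
  ⟨S, h, fun T hT => by rw [hc]; exact min_three T hT⟩

/-- **Main result.**  (1) In the `i`-graph of a well-covered graph, every vertex `X` with three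
distinct pairwise non-adjacent neighbours `X0, X1, X2`, together with vertices `Y01, Y02, Y12`
different from `X` that complete the three squares, has a common neighbour of `Y01, Y02, Y12`.
(2) Some graph on seven vertices has an `i`-graph which is not isomorphic to the `i`-graph of any
(finite) well-covered graph. -/
theorem result.{u} :
    (∀ (W : Type u) [Fintype W] [DecidableEq W] (H : SimpleGraph W), WellCovered H →
      ∀ X X0 X1 X2 Y01 Y02 Y12 : {S : Finset W // IsISet H S},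
        (iGraph H).Adj X X0 → (iGraph H).Adj X X1 → (iGraph H).Adj X X2 →
        X0 ≠ X1 → ¬ (iGraph H).Adj X0 X1 → X0 ≠ X2 → ¬ (iGraph H).Adj X0 X2 →
        X1 ≠ X2 → ¬ (iGraph H).Adj X1 X2 →
        (iGraph H).Adj X0 Y01 → (iGraph H).Adj X1 Y01 → Y01 ≠ X →
        (iGraph H).Adj X0 Y02 → (iGraph H).Adj X2 Y02 → Y02 ≠ X →
        (iGraph H).Adj X1 Y12 → (iGraph H).Adj X2 Y12 → Y12 ≠ X →
        ∃ Y, (iGraph H).Adj Y01 Y ∧ (iGraph H).Adj Y02 Y ∧ (iGraph H).Adj Y12 Y) ∧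
    ∃ G : SimpleGraph (Fin 7), ∀ (W : Type u) [Fintype W] [DecidableEq W] (H : SimpleGraph W),
      WellCovered H → IsEmpty (iGraph H ≃g iGraph G) := by
  refine ⟨?_, F, ?_⟩
  · intro W _ _ H hwc X X0 X1 X2 Y01 Y02 Y12 h0 h1 h2 a1 a2 a3 a4 a5 a6 b1 b2 b3 b4 b5 b6 b7 b8 b9
    exact completion hwc h0 h1 h2 ⟨a1, a2⟩ ⟨a3, a4⟩ ⟨a5, a6⟩ ⟨b1, b2, b3⟩ ⟨b4, b5, b6⟩ ⟨b7, b8, b9⟩
  · intro W _ _ H hwc
    refine ⟨fun e => ?_⟩
    obtain ⟨m1, m2, m3, m4, m5, m6, m7⟩ := mis_all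
    obtain ⟨r1, r2, r3, r4, r5, r6, r7, r8, r9, r10, r11, r12⟩ := rel_all
    obtain ⟨n1, n2, n3, n4, n5, n6⟩ := ne_all
    set X := mk _ m1 rfl
    set X0 := mk _ m2 rfl
    set X1 := mk _ m3 rfl
    set X2 := mk _ m4 rfl
    set Y01 := mk _ m5 rfl
    set Y02 := mk _ m6 rfl
    set Y12 := mk _ m7 rfl
    have conv : ∀ A B : {S : Finset (Fin 7) // IsISet F S}, Rel A.1 B.1 ↔ (iGraph F).Adj A B := by
      intro A B
      constructor
      · rintro ⟨h1, h2⟩
        exact ⟨fun h => h1 (congrArg _ h), h2⟩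
      · rintro ⟨h1, h2⟩
        exact ⟨fun h => h1 (Subtype.ext h), h2⟩
    have adj : ∀ A B : {S : Finset (Fin 7) // IsISet F S}, Rel A.1 B.1 →
        (iGraph H).Adj (e.symm A) (e.symm B) := by
      intro A B h
      exact e.symm.map_adj_iff.2 ((conv A B).1 h)
    have nadj : ∀ A B : {S : Finset (Fin 7) // IsISet F S}, ¬ Rel A.1 B.1 →
        ¬ (iGraph H).Adj (e.symm A) (e.symm B) := by
      intro A B h h1
      exact h ((conv A B).2 (e.symm.map_adj_iff.1 h1))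
    have ne : ∀ A B : {S : Finset (Fin 7) // IsISet F S}, A.1 ≠ B.1 → e.symm A ≠ e.symm B := by
      intro A B h h1
      exact h (congrArg _ (e.symm.injective h1))
    obtain ⟨Y, hY1, hY2, hY3⟩ := completion hwc (adj X X0 r1) (adj X X1 r2) (adj X X2 r3)
      ⟨ne X0 X1 n1, nadj X0 X1 r4⟩ ⟨ne X0 X2 n2, nadj X0 X2 r5⟩ ⟨ne X1 X2 n3, nadj X1 X2 r6⟩
      ⟨adj X0 Y01 r7, adj X1 Y01 r8, ne Y01 X n4⟩ ⟨adj X0 Y02 r9, adj X2 Y02 r10, ne Y02 X n5⟩
      ⟨adj X1 Y12 r11, adj X2 Y12 r12, ne Y12 X n6⟩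
    have back : ∀ A : {S : Finset (Fin 7) // IsISet F S}, (iGraph H).Adj (e.symm A) Y →
        Rel A.1 (e Y).1 := by
      intro A h
      rw [conv, ← e.symm.map_adj_iff, e.symm_apply_apply]
      exact h
    exact no_common (e Y).1 (e Y).2.1 ⟨back Y01 hY1, back Y02 hY2, back Y12 hY3⟩

end Pool.Agent.Results.MP_89d95d_co.NoWellCoveredSeed
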